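import Pool.Agent.Q136.SG.Cyc

/-!
# The minus parts of the `μ`-invariants of CM fields grow strictly in all extensions of degree divisible by `p`

If `L / F` is an extension of CM fields with `L ∩ F_∞ = F` and `p ∣ [L : F]`, Galois or not, then
`μ⁻(L) ≥ μ⁻(F) + m⁻(F)`.
-/

set_option autoImplicit false
set_option maxHeartbeats 4000000
set_option synthInstance.maxHeartbeats 400000

namespace Pool.Agent.Results.MP_a4986b_nt.StrictGrowthCMFields

open Pool.Agent.Q173.MU Pool.Agent.Q50.MU Pool.Agent.Q136.SG.Cyc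

/-- Let `p` be an odd prime. `F_m = F ℚ_m` are the layers of the cyclotomic `ℤ_p`-extension `F_∞` of the CM field `F` and `v⁻`
is the exponent of `p` in the relative class number. Assume the known properties of the Iwasawa modules. Let `L / F` be an
extension of CM fields with `L ∩ F_∞ = F` and `p ∣ [L : F]`, Galois or not. Then `μ⁻(L) ≥ μ⁻(F) + m⁻(F)`, and
`μ⁻(L) ≥ 2 μ⁻(F)` if `[L : F]` is divisible by `p ^ μ⁻(F)`. Either `v⁻(F_m) = O(m)` or
`v⁻(L F_m) ≥ v⁻(F_m) + [F_m : F] - O(m)`. Iwasawa's conjecture holds for all totally real fields and all CM fields if and only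
if for every CM field `F` which contains the `p`-th roots of unity there are such `L` and `c < 1` with
`v⁻(L F_m) ≤ v⁻(F_m) + c [F_m : F]` for infinitely many `m`. -/
theorem result (p : ℕ) [Fact p.Prime] (_ : p ≠ 2) (D : IwData) (hl : HasLayers p) (hD : KnownMinus D p) :
    (∀ F L : IntermediateField ℚ ℂ, IsCMExt p F L → D.mu F + D.m F ≤ D.mu L ∧
      (p ^ D.mu F ∣ deg F L → 2 * D.mu F ≤ D.mu L) ∧
      (IsSmall p (vM p) F ∨ GrowsBy p (vM p) F L 1) ∧
      ∀ c : ℝ, c < 1 → SmallGrowth p (vM p) F L c → IsSmall p (vM p) F) ∧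
    ((∀ F : IntermediateField ℚ ℂ, (IsTotReal F ∨ IsCM F) → MuZero p F) ↔
      ∀ F : IntermediateField ℚ ℂ, IsCM F → HasRoot p F → ∃ (L : IntermediateField ℚ ℂ) (c : ℝ),
        IsCMExt p F L ∧ c < 1 ∧ SmallGrowth p (vM p) F L c) :=
  cmFields hl hD

end Pool.Agent.Results.MP_a4986b_nt.StrictGrowthCMFields
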