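import Pool.Agent.Q136.SG.Cyc

/-!
# The growth of the minus parts of the `μ`-invariants in Galois `p`-extensions of CM fields

If `L / F` is a Galois `p`-extension of CM fields with group `G` and `L ∩ F_∞ = F`, then
`μ⁻(L) ≥ μ⁻(F) + (i(G) - 1) m⁻(F)`, where `i(G)` is the number of the irreducible constituents of the regular representation
of `G` over `ℚ`.
-/

set_option autoImplicit false
set_option maxHeartbeats 4000000
set_option synthInstance.maxHeartbeats 400000

namespace Pool.Agent.Results.MP_a4986b_nt.StrictGrowthCMPExtensions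

open Pool.Agent.Q173.MU Pool.Agent.Q50.MU Pool.Agent.Q136.SG.Cyc

/-- Let `p` be an odd prime. `F_m = F ℚ_m` are the layers of the cyclotomic `ℤ_p`-extension `F_∞` of the CM field `F` and `v⁻`
is the exponent of `p` in the relative class number. Assume the known properties of the Iwasawa modules. Let `L / F` be a
Galois `p`-extension of CM fields with group `G` and `L ∩ F_∞ = F`. Let `i(G)` be the number of the irreducible constituents
of the regular representation of `G` over `ℚ`. Then `μ⁻(L) ≥ μ⁻(F) + (i(G) - 1) m⁻(F)`. Either `v⁻(F_m) = O(m)` or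
`v⁻(L F_m) ≥ v⁻(F_m) + (i(G) - 1) [F_m : F] - O(m)`. For `0 < c < i(G) - 1` one has `v⁻(F_m) = O(m)` if and only if
`v⁻(L F_m) ≤ v⁻(F_m) + c [F_m : F]` for infinitely many `m`. Here `i(G) ≥ n + 1` for a group of order `p ^ n`, and
`(i(G) - 1) φ(N) ≥ |G| - 1` for a finite abelian group of exponent dividing `N`. -/
theorem result (p : ℕ) [Fact p.Prime] (_ : p ≠ 2) (D : IwData) (hl : HasLayers p) (hD : KnownMinus D p) :
    (∀ (F L : IntermediateField ℚ ℂ) (h : F ≤ L), IsCM F → IsCM L → IsExt p h → IsPGroup p (GalGrp h) →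
      D.mu F + (irr (GalGrp h) - 1) * D.m F ≤ D.mu L ∧
      (IsSmall p (vM p) F ∨ GrowsBy p (vM p) F L (irr (GalGrp h) - 1 : ℕ)) ∧
      ∀ c : ℝ, 0 < c → c < (irr (GalGrp h) - 1 : ℕ) → (IsSmall p (vM p) F ↔ SmallGrowth p (vM p) F L c)) ∧
    ((∀ (G : Type) [Group G] [Finite G] (n : ℕ), Nat.card G = p ^ n → n + 1 ≤ irr G) ∧
      ∀ (G : Type) [CommGroup G] [Finite G] (N : ℕ), 0 < N → (∀ g : G, g ^ N = 1) →
        Nat.card G ≤ 1 + (irr G - 1) * N.totient) :=
  ⟨cmPExt hl hD, fun _ _ _ _ hn => le_irr_of_card hn, fun _ _ _ _ hN hG => card_le_irr hN hG⟩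

end Pool.Agent.Results.MP_a4986b_nt.StrictGrowthCMPExtensions
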