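import Pool.Agent.Q136.SG.Cyc

/-!
# The `μ`-invariants of the cyclotomic `ℤ_p`-extensions grow strictly in large `p`-extensions unless they vanish

If `L / F` is a Galois `p`-extension with `L ∩ F_∞ = F` whose group has a quotient `(ℤ/p)^d` and `F` has `r` archimedean
places, then `μ(L) ≥ μ(F) + d m(F) - r`, where `m(F)` is the number of the summands `Λ / (p ^ (m_i))` of `X(F_∞)`.
-/

set_option autoImplicit false
set_option maxHeartbeats 4000000
set_option synthInstance.maxHeartbeats 400000

namespace Pool.Agent.Results.MP_a4986b_nt.StrictGrowthNumberFields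

open Pool.Agent.Q173.MU Pool.Agent.Q50.MU Pool.Agent.Q136.SG.Cyc

/-- Let `p` be an odd prime. `F_m = F ℚ_m` are the layers of the cyclotomic `ℤ_p`-extension `F_∞` of the number field `F` and
`v` is the exponent of `p` in the class number. Assume the known properties of the Iwasawa modules. Let `F` be a number field
with `r` archimedean places and `L / F` a Galois `p`-extension with `L ∩ F_∞ = F` whose group has a quotient `(ℤ/p)^d`. Then
`μ(L) ≥ μ(F) + d m(F) - r`. Either `v(F_m) = O(m)` (Iwasawa's conjecture for `F`) or
`v(L F_m) ≥ v(F_m) + (d - r) [F_m : F] - O(m)`. For `0 < c < d - r` the conjecture for `F` holds if and only if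
`v(L F_m) ≤ v(F_m) + c [F_m : F]` for infinitely many `m`. Iwasawa's conjecture holds for all number fields if and only if for
every number field `F` there are such `d`, `L` and `c < d - r` with `v(L F_m) ≤ v(F_m) + c [F_m : F]` for infinitely many
`m`. -/
theorem result (p : ℕ) [Fact p.Prime] (_ : p ≠ 2) (D : IwData) (hD : Known D p) :
    (∀ (d : ℕ) (F L : IntermediateField ℚ ℂ), IsPExt p d F L → D.mu F + d * D.m F ≤ D.mu L + places F ∧
      (MuZero p F ∨ GrowsBy p (vR p) F L (d - places F)) ∧
      ∀ c : ℝ, 0 < c → c < d - places F → (MuZero p F ↔ SmallGrowth p (vR p) F L c)) ∧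
    ((∀ F : IntermediateField ℚ ℂ, FiniteDimensional ℚ F → MuZero p F) ↔
      ∀ F : IntermediateField ℚ ℂ, FiniteDimensional ℚ F → ∃ (d : ℕ) (L : IntermediateField ℚ ℂ) (c : ℝ),
        IsPExt p d F L ∧ c < d - places F ∧ SmallGrowth p (vR p) F L c) :=
  numberFields hD

end Pool.Agent.Results.MP_a4986b_nt.StrictGrowthNumberFields
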