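import Pool.Agent.Q173.MU.Data

/-!
# Iwasawa's conjecture on the `μ`-invariant is equivalent to sublinear growth in elementary abelian extensions

If the `μ`-invariant of the cyclotomic `ℤ_p`-extension of a number field `F` with `r` archimedean places is not zero,
then for ALL abelian `p`-extensions `L` of `F` of exponent `p ^ e` (with `L ∩ F_∞ = F`) the `μ`-invariant of `L` is at
least `[L : F] / p ^ (e (r + 1))`. So it grows linearly in the degree, with a constant which depends only on `r` and `e`.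
-/

set_option autoImplicit false

namespace Pool.Agent.Results.MP_a4986b_nt.SublinearGrowth

open Pool.Agent.Q173.MU NumberField

/-- The exponent of `p` in the class number of `K`. -/
noncomputable def vh (p : ℕ) (K : IntermediateField ℚ ℂ) : ℕ := padicValNat p (Nat.card (ClassGroup (𝓞 K)))

/-- The conjecture for the field `F` (the form of the frozen statement): the exponent of `p` in the class number of the
layer `F_m` is at most `C (m + 1)`, i.e. the `μ`-invariant is zero. -/
def MuZero (p : ℕ) (F : IntermediateField ℚ ℂ) : Prop :=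
  ∃ C : ℕ, ∀ m K, IsLayer p m F K → vh p K ≤ C * (m + 1)

/-- Iwasawa's formula: the exponent of `p` in the class number of the layer `F_m` is `μ [F_m : F] + O(m)`. -/
def Formula (D : IwData) (p : ℕ) : Prop := ∀ F : IntermediateField ℚ ℂ, FiniteDimensional ℚ F →
  ∃ C : ℝ, ∀ m K, IsLayer p m F K → |(vh p K : ℝ) - D.mu F * deg F K| ≤ C * (m + 1)

/-- The known properties of the modules `X F` for the prime `p ≠ 2`. -/
structure Known (D : IwData) (p : ℕ) : Prop where
  loc : D.IsLoc p
  torsion : D.IsTorsion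
  formula : Formula D p
  pres : D.HasPres p (fun _ => True)
  layers : HasLayers p

/-- The exponent of `p` in the class number of infinitely many layers of `L` is at most `c [L_m : F]`. -/
def SmallOften (p : ℕ) (F L : IntermediateField ℚ ℂ) (c : ℝ) : Prop :=
  ∀ M : ℕ, ∃ m ≥ M, ∃ K, IsLayer p m L K ∧ (vh p K : ℝ) ≤ c * deg F K

/-- For all layers of `L` the exponent of `p` in the class number is at least `c [L_m : F] - O(m)`. -/
def LargeAlways (p : ℕ) (F L : IntermediateField ℚ ℂ) (c : ℝ) : Prop :=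
  ∃ C : ℝ, ∀ m K, IsLayer p m L K → c * deg F K - C * (m + 1) ≤ (vh p K : ℝ)

section

variable {p : ℕ} [hp : Fact p.Prime] {D : IwData}

lemma deg_layer {F L K : IntermediateField ℚ ℂ} {m : ℕ} (h : F ≤ L) (hK : IsLayer p m L K) :
    (deg F K : ℝ) = deg F L * deg L K := by
  rw [← deg_mul h (layer_le hK)]
  push_cast
  ring

lemma abs_le_of {C : ℝ} {F K : IntermediateField ℚ ℂ} {m : ℕ}
    (h : |(vh p K : ℝ) - D.mu F * deg F K| ≤ C * (m + 1)) :
    (D.mu F * deg F K : ℝ) - C * (m + 1) ≤ vh p K ∧ (vh p K : ℝ) ≤ D.mu F * deg F K + C * (m + 1) := by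
  rw [abs_le] at h
  constructor
  · linarith [h.1]
  · linarith [h.2]

/-- linear functions are smaller than the degrees of the layers -/
lemma exists_small {F L : IntermediateField ℚ ℂ} (hL : FiniteDimensional ℚ L) (hFL : F ≤ L) (hpos : 0 < deg F L)
    (C ε : ℝ) (hε : 0 < ε) : ∃ M : ℕ, ∀ m ≥ M, ∀ K, IsLayer p m L K → C * (m + 1) < ε * deg F K := by
  have hp1 : (1 : ℝ) < p := by exact_mod_cast hp.out.one_lt
  set d : ℝ := (Module.finrank ℚ L : ℝ) with hd
  have hd0 : 0 < d := by
    rw [hd]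
    exact_mod_cast Module.finrank_pos
  -- `m + 1 = o(p ^ m)`
  have h1 : Filter.Tendsto (fun m : ℕ => ((m : ℝ) + 1) / (p : ℝ) ^ m) Filter.atTop (nhds 0) := by
    have h2 := tendsto_pow_const_div_const_pow_of_one_lt 1 hp1
    have h3 := tendsto_pow_const_div_const_pow_of_one_lt 0 hp1
    have h4 := h2.add h3
    rw [add_zero] at h4
    refine h4.congr (fun m => ?_)
    rw [pow_one, pow_zero, ← add_div]
  have h5 : ∃ M : ℕ, ∀ m ≥ M, ((m : ℝ) + 1) / (p : ℝ) ^ m < ε / (d * (|C| + 1)) := by
    have h6 : 0 < ε / (d * (|C| + 1)) := by positivity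
    exact Filter.eventually_atTop.1 (h1.eventually (gt_mem_nhds h6))
  obtain ⟨M, hM⟩ := h5
  refine ⟨M, fun m hm K hK => ?_⟩
  have h7 := hM m hm
  have hpm : (0 : ℝ) < (p : ℝ) ^ m := pow_pos (by linarith) m
  rw [div_lt_iff₀ hpm, div_mul_eq_mul_div, lt_div_iff₀ (by positivity)] at h7
  have h8 : (p : ℝ) ^ m ≤ deg L K * d := by
    have := layer_deg hp.out hL hK
    rw [hd]
    exact_mod_cast this
  have h9 : (deg L K : ℝ) ≤ deg F K := by
    rw [deg_layer hFL hK]
    have : (1 : ℝ) ≤ deg F L := by exact_mod_cast hpos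
    nlinarith [(Nat.cast_nonneg (deg L K) : (0 : ℝ) ≤ _)]
  have h10 : C ≤ |C| + 1 := by linarith [le_abs_self C]
  have hm0 : (0 : ℝ) ≤ (m : ℝ) + 1 := by positivity
  have h11 : ((m : ℝ) + 1) * (|C| + 1) * d < ε * deg F K * d := by
    calc ((m : ℝ) + 1) * (|C| + 1) * d = (↑m + 1) * (d * (|C| + 1)) := by ring
      _ < ε * (p : ℝ) ^ m := h7
      _ ≤ ε * (deg L K * d) := by
        exact mul_le_mul_of_nonneg_left h8 hε.le
      _ ≤ ε * (deg F K * d) := by
        apply mul_le_mul_of_nonneg_left _ hε.le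
        exact mul_le_mul_of_nonneg_right h9 hd0.le
      _ = ε * deg F K * d := by ring
  have h12 := lt_of_mul_lt_mul_right h11 hd0.le
  calc C * (m + 1) ≤ (|C| + 1) * (m + 1) := mul_le_mul_of_nonneg_right h10 hm0
    _ = ((m : ℝ) + 1) * (|C| + 1) := by ring
    _ < ε * deg F K := h12

lemma deg_pos {e : ℕ} {F L : IntermediateField ℚ ℂ} (hL : IsAb p e F L) : 0 < deg F L := by
  obtain ⟨h, hE, _, _⟩ := hL
  have := finite_gal hE
  rw [← card_gal hE]
  exact Nat.card_pos

lemma muZero_iff (hD : Known D p) {F : IntermediateField ℚ ℂ} (hF : FiniteDimensional ℚ F) :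
    MuZero p F ↔ D.mu F = 0 := by
  obtain ⟨C, hC⟩ := hD.formula F hF
  have hdeg : 0 < deg F F := deg_pos (isAb_self p 0 hF)
  constructor
  · rintro ⟨B, hB⟩
    by_contra hne
    have hpos : (1 : ℝ) ≤ D.mu F := by
      have : 1 ≤ D.mu F := Nat.one_le_iff_ne_zero.2 hne
      exact_mod_cast this
    obtain ⟨M, hM⟩ := exists_small (p := p) hF le_rfl hdeg (C + B) 1 one_pos
    obtain ⟨K, hK⟩ := hD.layers.exists M F
    have h1 := hM M le_rfl K hK
    have h2 := (abs_le_of (hC M K hK)).1
    have h3 : (vh p K : ℝ) ≤ B * (M + 1) := by exact_mod_cast hB M K hK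
    have h4 : (deg F K : ℝ) ≤ D.mu F * deg F K := by
      nlinarith [(Nat.cast_nonneg (deg F K) : (0 : ℝ) ≤ _)]
    nlinarith
  · intro h0
    refine ⟨⌈C⌉₊, fun m K hK => ?_⟩
    have h2 := (abs_le_of (hC m K hK)).2
    rw [h0, Nat.cast_zero, zero_mul, zero_add] at h2
    have h3 : (vh p K : ℝ) ≤ (⌈C⌉₊ * (m + 1) : ℕ) := by
      refine h2.trans ?_
      push_cast
      exact mul_le_mul_of_nonneg_right (Nat.le_ceil C) (by positivity)
    exact_mod_cast h3

/-- **The dichotomy.** -/
lemma dichotomy (hD : Known D p) {F L : IntermediateField ℚ ℂ} {e : ℕ} (hL : IsAb p e F L) (h0 : ¬ MuZero p F) :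
    LargeAlways p F L (1 / p ^ (e * (places F + 1))) := by
  have hF := fin_left_of_isAb hL
  have hLf := fin_of_isAb hL
  rw [muZero_iff hD hF, D.mu_eq_zero_iff hD.torsion hF] at h0
  have h1 := D.growth hD.loc hD.pres trivial hL (Nat.pos_of_ne_zero h0)
  have h2 := D.m_le_mu hD.torsion hLf
  obtain ⟨C, hC⟩ := hD.formula L hLf
  refine ⟨C, fun m K hK => ?_⟩
  have h3 := (abs_le_of (hC m K hK)).1
  have hq : (0 : ℝ) < (p : ℝ) ^ (e * (places F + 1)) := pow_pos (by exact_mod_cast hp.out.pos) _
  have h4 : (deg F L : ℝ) ≤ (p : ℝ) ^ (e * (places F + 1)) * D.mu L := by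
    have : deg F L ≤ p ^ (e * (places F + 1)) * D.mu L := h1.trans (Nat.mul_le_mul_left _ h2)
    exact_mod_cast this
  obtain ⟨hle, _⟩ := hL
  rw [deg_layer hle hK, div_mul_eq_mul_div, one_mul]
  have h5 : (deg F L * deg L K : ℝ) / (p : ℝ) ^ (e * (places F + 1)) ≤ D.mu L * deg L K := by
    rw [div_le_iff₀ hq]
    nlinarith [(Nat.cast_nonneg (deg L K) : (0 : ℝ) ≤ _)]
  linarith

lemma not_small (hD : Known D p) {F L : IntermediateField ℚ ℂ} {e : ℕ} (hL : IsAb p e F L) {c : ℝ}
    (hc : c < 1 / p ^ (e * (places F + 1))) (h0 : ¬ MuZero p F) : ¬ SmallOften p F L c := by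
  intro hs
  obtain ⟨C, hC⟩ := dichotomy hD hL h0
  have hdp := deg_pos hL
  have hLf := fin_of_isAb hL
  obtain ⟨hle, _⟩ := hL
  obtain ⟨M, hM⟩ := exists_small (p := p) hLf hle hdp C
    (1 / p ^ (e * (places F + 1)) - c) (by linarith)
  obtain ⟨m, hm, K, hK, hsm⟩ := hs M
  have h1 := hM m hm K hK
  have h2 := hC m K hK
  have h3 : (1 / (p : ℝ) ^ (e * (places F + 1)) - c) * deg F K =
    1 / (p : ℝ) ^ (e * (places F + 1)) * deg F K - c * deg F K := by ring
  linarith

lemma small_of_muZero (hl : HasLayers p) {F : IntermediateField ℚ ℂ} (hF : FiniteDimensional ℚ F)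
    (h0 : MuZero p F) {c : ℝ} (hc : 0 < c) : SmallOften p F F c := by
  obtain ⟨C, hC⟩ := h0
  obtain ⟨M, hM⟩ := exists_small (p := p) hF le_rfl (deg_pos (isAb_self p 0 hF)) C c hc
  intro N
  obtain ⟨K, hK⟩ := hl.exists (max M N) F
  refine ⟨max M N, le_max_right _ _, K, hK, ?_⟩
  have h1 := hM (max M N) (le_max_left _ _) K hK
  have h2 : (vh p K : ℝ) ≤ C * ((max M N : ℕ) + 1) := by exact_mod_cast hC _ K hK
  exact h2.trans h1.le

end

/-- Let `p` be an odd prime. `F_m` is the `m`-th layer of the cyclotomic `ℤ_p`-extension of the number field `F`,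
`r` the number of its archimedean places and `v` the exponent of `p` in the class number. Assume the known properties of
the Iwasawa modules. Then:

(1) For every number field `F` either `v(F_m) = O(m)` (the conjecture of Iwasawa for `F`), or for ALL abelian
`p`-extensions `L / F` with group of exponent `p ^ e` and `L ∩ F_∞ = F` one has
`v(L_m) ≥ [L_m : F] / p ^ (e (r + 1)) - O(m)`.

(2) For every number field `F` the conjecture of Iwasawa holds if and only if there are `e`, an abelian `p`-extension `L`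
of exponent `p ^ e` as in (1) and `c < 1 / p ^ (e (r + 1))` such that `v(L_m) ≤ c [L_m : F]` for infinitely many `m`.

(3) The conjecture of Iwasawa holds for all number fields if and only if for all number fields `F` and all `ε > 0` there
is an elementary abelian `p`-extension `L` of `F` such that `v(L_m) ≤ ε [L_m : F]` for infinitely many `m`. -/
theorem result (p : ℕ) [Fact p.Prime] (_ : p ≠ 2) (D : IwData) (hD : Known D p) :
    (∀ F : IntermediateField ℚ ℂ, FiniteDimensional ℚ F → (MuZero p F ∨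
      ∀ e L, IsAb p e F L → LargeAlways p F L (1 / p ^ (e * (places F + 1))))) ∧
    (∀ F : IntermediateField ℚ ℂ, FiniteDimensional ℚ F → (MuZero p F ↔
      ∃ (e : ℕ) (L : IntermediateField ℚ ℂ) (c : ℝ), IsAb p e F L ∧ c < 1 / p ^ (e * (places F + 1)) ∧
        SmallOften p F L c)) ∧
    ((∀ F : IntermediateField ℚ ℂ, FiniteDimensional ℚ F → MuZero p F) ↔
      ∀ F : IntermediateField ℚ ℂ, FiniteDimensional ℚ F → ∀ ε : ℝ, 0 < ε → ∃ L, IsAb p 1 F L ∧
        SmallOften p F L ε) := by
  refine ⟨?_, ?_, ?_⟩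
  · intro F hF
    by_cases h : MuZero p F
    · exact Or.inl h
    · exact Or.inr (fun e L hL => dichotomy hD hL h)
  · intro F hF
    constructor
    · intro h
      refine ⟨0, F, 1 / 2, isAb_self p 0 hF, ?_, small_of_muZero hD.layers hF h (by norm_num)⟩
      rw [zero_mul, pow_zero]
      norm_num
    · rintro ⟨e, L, c, hL, hc, hs⟩
      by_contra h
      exact not_small hD hL hc h hs
  · constructor
    · intro h F hF ε hε
      exact ⟨F, isAb_self p 1 hF, small_of_muZero hD.layers hF (h F hF) hε⟩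
    · intro h F hF
      by_contra h0
      have hq : (0 : ℝ) < (p : ℝ) ^ (1 * (places F + 1)) :=
        pow_pos (by exact_mod_cast (Fact.out : p.Prime).pos) _
      obtain ⟨L, hL, hs⟩ := h F hF (1 / p ^ (1 * (places F + 1)) / 2) (by positivity)
      refine not_small hD hL ?_ h0 hs
      have : (0 : ℝ) < 1 / (p : ℝ) ^ (1 * (places F + 1)) := by positivity
      linarith

end Pool.Agent.Results.MP_a4986b_nt.SublinearGrowth
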